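import Pool.Agent.helper54.GR3.Spec

set_option autoImplicit false

open Complex Metric Set Filter Topology MeasureTheory
open MPS (om)
open PPS (pre TT fd)
open XPS (Df er dens tau)
open Pool.Agent.helper16.Multibrot

noncomputable section

namespace GR

theorem LOC3_sq (s : ℂ) (ε : ℝ) (h0 : 0 ≤ ε) (hε : ε ≤ 1 / 2) (hs : ‖s - 1‖ ≤ ε) :
    ‖s ^ 2 - 1‖ ≤ 5 / 2 * ε ∧ ‖s ^ 2‖ ≤ 9 / 4 := by
  have h1 : s ^ 2 - 1 = 2 * (s - 1) + (s - 1) ^ 2 := by ring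
  have h2 : ‖s ^ 2 - 1‖ ≤ 5 / 2 * ε := by
    rw [h1]
    calc ‖2 * (s - 1) + (s - 1) ^ 2‖ ≤ ‖2 * (s - 1)‖ + ‖(s - 1) ^ 2‖ := norm_add_le _ _
      _ = 2 * ‖s - 1‖ + ‖s - 1‖ ^ 2 := by rw [norm_mul, norm_pow]; norm_num
      _ ≤ 5 / 2 * ε := by nlinarith [norm_nonneg (s - 1)]
  refine ⟨h2, ?_⟩
  calc ‖s ^ 2‖ = ‖(s ^ 2 - 1) + 1‖ := by ring_nf
    _ ≤ ‖s ^ 2 - 1‖ + ‖(1 : ℂ)‖ := norm_add_le _ _
    _ ≤ 9 / 4 := by rw [norm_one]; linarith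

theorem LOC3_cu (p s : ℂ) (ε : ℝ) (h0 : 0 ≤ ε) (hε : ε ≤ 1 / 2) (hp : ‖p - 1‖ ≤ ε)
    (hs : ‖s - 1‖ ≤ ε) : ‖p * s ^ 2 - 1‖ ≤ 5 * ε := by
  obtain ⟨h1, h2⟩ := LOC3_sq s ε h0 hε hs
  have h3 : p * s ^ 2 - 1 = (p - 1) * s ^ 2 + (s ^ 2 - 1) := by ring
  rw [h3]
  calc ‖(p - 1) * s ^ 2 + (s ^ 2 - 1)‖ ≤ ‖(p - 1) * s ^ 2‖ + ‖s ^ 2 - 1‖ := norm_add_le _ _
    _ = ‖p - 1‖ * ‖s ^ 2‖ + ‖s ^ 2 - 1‖ := by rw [norm_mul]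
    _ ≤ ε * (9 / 4) + 5 / 2 * ε := by gcongr
    _ ≤ 5 * ε := by linarith

theorem LOC3_alg (γ u a b xs p s e : ℂ) (ε : ℝ) (h0 : 0 ≤ ε) (hε : ε ≤ 1 / 2) (hu : u ≠ 0)
    (hγ : γ ≠ 0) (hp : ‖p - 1‖ ≤ ε) (hs : ‖s - 1‖ ≤ ε) (hx : ‖xs - 1‖ ≤ ε) :
    ‖xs / (γ * u * p) * (γ * s) ^ 2 - γ / u‖ ≤ 12 * ε * ‖γ / u‖ ∧
    ‖a * (γ * s) ^ 2 - a * γ ^ 2‖ ≤ 12 * ε * ‖a * γ ^ 2‖ ∧
    ‖b * (γ * u * p) * (γ * s) ^ 2 - b * γ ^ 3 * u‖ ≤ 12 * ε * ‖b * γ ^ 3 * u‖ ∧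
    ‖e * (γ * s) ^ 2‖ ≤ 9 / 4 * ‖e‖ * ‖γ‖ ^ 2 := by
  obtain ⟨h1, h2⟩ := LOC3_sq s ε h0 hε hs
  have hpn : 1 / 2 ≤ ‖p‖ := by
    have h3 : ‖(1 : ℂ)‖ ≤ ‖p‖ + ‖p - 1‖ := by
      calc ‖(1 : ℂ)‖ = ‖p - (p - 1)‖ := by ring_nf
        _ ≤ ‖p‖ + ‖p - 1‖ := norm_sub_le _ _
    rw [norm_one] at h3
    linarith
  have hp0 : p ≠ 0 := by
    intro h
    rw [h, norm_zero] at hpn
    linarith
  refine ⟨?_, ?_, ?_, ?_⟩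
  · have e1 : xs / (γ * u * p) * (γ * s) ^ 2 - γ / u = γ / u * ((xs * s ^ 2 - p) / p) := by
      field_simp
    rw [e1, norm_mul, norm_div (xs * s ^ 2 - p) p]
    have e2 : ‖xs * s ^ 2 - p‖ ≤ 6 * ε := by
      have e3 : xs * s ^ 2 - p = (xs * s ^ 2 - 1) - (p - 1) := by ring
      rw [e3]
      calc ‖(xs * s ^ 2 - 1) - (p - 1)‖ ≤ ‖xs * s ^ 2 - 1‖ + ‖p - 1‖ := norm_sub_le _ _
        _ ≤ 5 * ε + ε := add_le_add (LOC3_cu xs s ε h0 hε hx hs) hp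
        _ = 6 * ε := by ring
    have e4 : ‖xs * s ^ 2 - p‖ / ‖p‖ ≤ 12 * ε := by
      rw [div_le_iff₀ (by linarith)]
      nlinarith
    calc ‖γ / u‖ * (‖xs * s ^ 2 - p‖ / ‖p‖) ≤ ‖γ / u‖ * (12 * ε) := by gcongr
      _ = 12 * ε * ‖γ / u‖ := by ring
  · have e1 : a * (γ * s) ^ 2 - a * γ ^ 2 = a * γ ^ 2 * (s ^ 2 - 1) := by ring
    rw [e1, norm_mul]
    calc ‖a * γ ^ 2‖ * ‖s ^ 2 - 1‖ ≤ ‖a * γ ^ 2‖ * (12 * ε) := by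
          gcongr
          linarith
      _ = 12 * ε * ‖a * γ ^ 2‖ := by ring
  · have e1 : b * (γ * u * p) * (γ * s) ^ 2 - b * γ ^ 3 * u = b * γ ^ 3 * u * (p * s ^ 2 - 1) := by
      ring
    rw [e1, norm_mul]
    have e2 := LOC3_cu p s ε h0 hε hp hs
    calc ‖b * γ ^ 3 * u‖ * ‖p * s ^ 2 - 1‖ ≤ ‖b * γ ^ 3 * u‖ * (12 * ε) := by
          gcongr
          linarith
      _ = 12 * ε * ‖b * γ ^ 3 * u‖ := by ring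
  · rw [mul_pow, norm_mul, norm_mul, norm_pow]
    calc ‖e‖ * (‖γ‖ ^ 2 * ‖s ^ 2‖) ≤ ‖e‖ * (‖γ‖ ^ 2 * (9 / 4)) := by gcongr
      _ = 9 / 4 * ‖e‖ * ‖γ‖ ^ 2 := by ring

/-- the final bookkeeping: `N` dominates `N₁` and `N₂`. -/
theorem LOC3_fin (H M M₁ M₂ T T₁ T₂ E : ℂ) (ε Λ C₂ η : ℝ) (h0 : 0 ≤ ε) (hε : ε ≤ 1 / 2)
    (hΛ : 0 < Λ) (hH : H = T + T₁ + T₂ + E) (hT : ‖T - M‖ ≤ 12 * ε * ‖M‖)
    (hT₁ : ‖T₁ - M₁‖ ≤ 12 * ε * ‖M₁‖) (hT₂ : ‖T₂ - M₂‖ ≤ 12 * ε * ‖M₂‖)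
    (hE : ‖E‖ ≤ 18 * C₂ / Λ * ‖M‖) (h1 : ‖M₁‖ ≤ 4 / Λ * ‖M‖) (h2 : ‖M₂‖ ≤ 4 / Λ * ‖M‖)
    (hη : 12 * ε + 56 / Λ + 18 * C₂ / Λ ≤ η) : ‖H - M‖ ≤ η * ‖M‖ := by
  have e1 : H - M = (T - M) + ((T₁ - M₁) + M₁) + ((T₂ - M₂) + M₂) + E := by rw [hH]; ring
  have e2 : ‖H - M‖ ≤ ‖T - M‖ + (‖T₁ - M₁‖ + ‖M₁‖) + (‖T₂ - M₂‖ + ‖M₂‖) + ‖E‖ := by
    rw [e1]
    refine le_trans (norm_add_le _ _) ?_
    gcongr
    refine le_trans (norm_add_le _ _) ?_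
    gcongr
    · refine le_trans (norm_add_le _ _) ?_
      gcongr
      exact norm_add_le _ _
    · exact norm_add_le _ _
  have e3 : 12 * ε * ‖M₁‖ ≤ 6 * ‖M₁‖ := by nlinarith [norm_nonneg M₁]
  have e4 : 12 * ε * ‖M₂‖ ≤ 6 * ‖M₂‖ := by nlinarith [norm_nonneg M₂]
  have e5 : ‖H - M‖ ≤ (12 * ε + 56 / Λ + 18 * C₂ / Λ) * ‖M‖ := by
    have e6 : (12 * ε + 56 / Λ + 18 * C₂ / Λ) * ‖M‖ =
        12 * ε * ‖M‖ + 7 * (4 / Λ * ‖M‖) + 7 * (4 / Λ * ‖M‖) + 18 * C₂ / Λ * ‖M‖ := by ring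
    rw [e6]
    linarith
  exact e5.trans (mul_le_mul_of_nonneg_right hη (norm_nonneg M))

theorem LOC3 (hSEL : SEL_stmt) : LOC3_stmt := by
  intro Γ C₂ C₃ ρ₁ η Λ₁ hΓ hC₂ hC₃ hρ₁ hη hΛ₁
  -- the constant Λ
  set Λ : ℝ := 4 + 1 / ρ₁ + 4 * (4 * C₃ + 1) + (24 * (4 * C₃ + 1) + 56 + 18 * C₂) / η + Γ ^ 2 * Λ₁ + Λ₁ with hΛdef
  have hq1 : 0 ≤ 1 / ρ₁ := by positivity
  have hq2 : 0 ≤ (24 * (4 * C₃ + 1) + 56 + 18 * C₂) / η := by positivity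
  have hq3 : 0 ≤ Γ ^ 2 * Λ₁ := by positivity
  have hΛ4 : 4 ≤ Λ := by rw [hΛdef]; linarith
  have hΛg : Γ ^ 2 * Λ₁ ≤ Λ := by rw [hΛdef]; linarith
  have hΛl : Λ₁ ≤ Λ := by rw [hΛdef]; linarith
  have hΛρ : 1 / ρ₁ ≤ Λ := by rw [hΛdef]; linarith
  have hΛC : 4 * (4 * C₃ + 1) ≤ Λ := by rw [hΛdef]; linarith
  have hΛη : (24 * (4 * C₃ + 1) + 56 + 18 * C₂) / η ≤ Λ := by rw [hΛdef]; linarith
  clear_value Λ
  have hΛ0 : 0 < Λ := by linarith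
  have hΓ0 : 0 < Γ := by linarith
  have hΛ8 : 1 ≤ Λ ^ 8 := one_le_pow₀ (by linarith)
  refine ⟨Γ * Λ ^ 8, 1 / (Γ * Λ ^ 6), one_le_mul_of_one_le_of_one_le hΓ hΛ8, by positivity, ?_⟩
  intro g bh u₀ γ xs a b hγ hu₀ hxs hg hbh
  obtain ⟨k, hk, hsel⟩ := hSEL Λ ‖a‖ ‖b‖ (by linarith) (norm_nonneg a) (norm_nonneg b)
  rw [Finset.mem_Icc] at hk
  -- y and ρ
  set P : ℝ := Λ ^ k with hP
  have hP1 : Λ ≤ P := by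
    rw [hP]
    calc Λ = Λ ^ 1 := (pow_one Λ).symm
      _ ≤ Λ ^ k := pow_le_pow_right₀ (by linarith) hk.1
  have hP6 : P ≤ Λ ^ 6 := by
    rw [hP]
    exact pow_le_pow_right₀ (by linarith) hk.2
  clear_value P
  have hP0 : 0 < P := by linarith
  have hγ0 : γ ≠ 0 := by
    intro h
    rw [h, norm_zero] at hγ
    linarith
  set ρ : ℝ := 1 / (Γ * P) with hρdef
  have hρ0 : 0 < ρ := by rw [hρdef]; positivity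
  have hρP : ρ * (Γ * P) = 1 := by rw [hρdef]; field_simp
  have hρΛ : ρ * Λ ≤ 1 := by
    calc ρ * Λ ≤ ρ * (Γ * P) := by
          gcongr
          exact le_trans hP1 (le_mul_of_one_le_left hP0.le hΓ)
      _ = 1 := hρP
  have hρle : ρ ≤ ρ₁ := by
    have h1 : 1 ≤ ρ₁ * Λ := by
      rw [div_le_iff₀ hρ₁] at hΛρ
      linarith
    by_contra h
    push Not at h
    have h2 := mul_lt_mul_of_pos_right h hΛ0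
    linarith
  have hρc : 1 / (Γ * Λ ^ 6) ≤ ρ := by
    rw [hρdef]
    apply one_div_le_one_div_of_le (by positivity)
    gcongr
  have hρX : Λ₁ / (Γ * Λ ^ 8) ≤ ρ := by
    refine le_trans ?_ hρc
    rw [div_le_div_iff₀ (by positivity) (by positivity), one_mul]
    have h1 : Λ₁ ≤ Λ ^ 2 := le_trans hΛl (le_self_pow₀ (by linarith) two_ne_zero)
    calc Λ₁ * (Γ * Λ ^ 6) ≤ Λ ^ 2 * (Γ * Λ ^ 6) := by gcongr
      _ = Γ * Λ ^ 8 := by ring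
  -- the quantity ε
  set ε : ℝ := 2 * (4 * C₃ + 1) / Λ with hεdef
  have hε0 : 0 ≤ ε := by rw [hεdef]; positivity
  have hε : ε ≤ 1 / 2 := by
    rw [hεdef, div_le_iff₀ hΛ0]
    linarith
  have hεΛ : ε * Λ = 2 * (4 * C₃ + 1) := by rw [hεdef]; field_simp
  have hηε : 12 * ε + 56 / Λ + 18 * C₂ / Λ ≤ η := by
    have h1 : 12 * ε + 56 / Λ + 18 * C₂ / Λ = (24 * (4 * C₃ + 1) + 56 + 18 * C₂) / Λ := by
      rw [hεdef]; ring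
    rw [h1, div_le_iff₀ hΛ0]
    rw [div_le_iff₀ hη] at hΛη
    linarith
  clear_value ρ ε
  have hu₀ρ : ‖u₀‖ * Λ ^ 2 ≤ ρ := by
    have h1 : ‖u₀‖ * (Γ * Λ ^ 8) ≤ 1 := by
      rwa [le_div_iff₀ (by positivity)] at hu₀
    by_contra h
    push Not at h
    have h2 : ρ * (Γ * Λ ^ 6) < ‖u₀‖ * Λ ^ 2 * (Γ * Λ ^ 6) := by
      apply mul_lt_mul_of_pos_right h
      positivity
    have h3 : ρ * (Γ * P) ≤ ρ * (Γ * Λ ^ 6) := by gcongr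
    have h4 : ‖u₀‖ * Λ ^ 2 * (Γ * Λ ^ 6) = ‖u₀‖ * (Γ * Λ ^ 8) := by ring
    linarith
  have hxs' : ‖xs - 1‖ ≤ ε := by
    have h1 : ‖xs - 1‖ * (Γ * Λ ^ 8) ≤ 1 := by
      rwa [le_div_iff₀ (by positivity)] at hxs
    have h2 : Λ ≤ Γ * Λ ^ 8 := by
      calc Λ = 1 * Λ ^ 1 := by ring
        _ ≤ Γ * Λ ^ 8 := by
          gcongr
          · linarith
          · norm_num
    have h3 : ‖xs - 1‖ * Λ ≤ 1 := by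
      calc ‖xs - 1‖ * Λ ≤ ‖xs - 1‖ * (Γ * Λ ^ 8) := by gcongr
        _ ≤ 1 := h1
    by_contra h
    push Not at h
    have h4 := mul_lt_mul_of_pos_right h hΛ0
    linarith
  -- pointwise facts on the annulus
  have key : ∀ u : ℂ, ρ / 2 < ‖u‖ → ‖u‖ < ρ → ∃ p s e : ℂ, ‖p - 1‖ ≤ ε ∧ ‖s - 1‖ ≤ ε ∧
      u ≠ 0 ∧ bh (g u) * deriv g u ^ 2 = xs / (γ * u * p) * (γ * s) ^ 2 + a * (γ * s) ^ 2 +
        b * (γ * u * p) * (γ * s) ^ 2 + e * (γ * s) ^ 2 ∧ ‖e‖ * (P * Λ) ≤ 4 * C₂ := by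
    intro u hu1 hu2
    have hu0 : u ≠ 0 := by
      intro h
      rw [h, norm_zero] at hu1
      linarith
    have hun : 0 < ‖u‖ := norm_pos_iff.2 hu0
    have hu14 : ‖u‖ ≤ 1 / 4 := by
      have h1 := mul_le_mul_of_nonneg_left hΛ4 hρ0.le
      linarith
    obtain ⟨hg1, hg2⟩ := hg u hu14
    have hΛ2 : 1 ≤ Λ ^ 2 := one_le_pow₀ (by linarith)
    have hu₀' : ‖u₀‖ ≤ ρ := le_trans (le_mul_of_one_le_right (norm_nonneg _) hΛ2) hu₀ρ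
    have hsub : ‖u - u₀‖ ≤ 2 * ρ := by
      calc ‖u - u₀‖ ≤ ‖u‖ + ‖u₀‖ := norm_sub_le _ _
        _ ≤ 2 * ρ := by linarith
    -- p
    have hgu : ‖g u - γ * u‖ ≤ ε * (Γ * ‖u‖) := by
      have h1 : g u - γ * u = (g u - γ * (u - u₀)) - γ * u₀ := by ring
      have h2 : ‖g u - γ * u‖ ≤ C₃ * (2 * ρ) ^ 2 + Γ * ‖u₀‖ := by
        rw [h1]
        calc ‖(g u - γ * (u - u₀)) - γ * u₀‖ ≤ ‖g u - γ * (u - u₀)‖ + ‖γ * u₀‖ := norm_sub_le _ _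
          _ ≤ C₃ * ‖u - u₀‖ ^ 2 + Γ * ‖u₀‖ := by
              rw [norm_mul, hγ]
              gcongr
          _ ≤ C₃ * (2 * ρ) ^ 2 + Γ * ‖u₀‖ := by gcongr
      have h3 : (C₃ * (2 * ρ) ^ 2 + Γ * ‖u₀‖) * Λ ≤ ε * (Γ * ‖u‖) * Λ := by
        have h4 : ε * (Γ * ‖u‖) * Λ = 2 * (4 * C₃ + 1) * (Γ * ‖u‖) := by
          calc ε * (Γ * ‖u‖) * Λ = ε * Λ * (Γ * ‖u‖) := by ring
            _ = _ := by rw [hεΛ]
        rw [h4]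
        have h5 : C₃ * (2 * ρ) ^ 2 * Λ ≤ 4 * C₃ * (Γ * ρ) := by
          calc C₃ * (2 * ρ) ^ 2 * Λ = 4 * C₃ * ρ * (ρ * Λ) := by ring
            _ ≤ 4 * C₃ * ρ * 1 := by gcongr
            _ ≤ 4 * C₃ * ρ * Γ := by gcongr
            _ = 4 * C₃ * (Γ * ρ) := by ring
        have h6 : Γ * ‖u₀‖ * Λ ≤ Γ * ρ := by
          have h7 : ‖u₀‖ * Λ ≤ ρ := by
            have h8 : ‖u₀‖ * Λ ≤ ‖u₀‖ * Λ ^ 2 := by
              gcongr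
              exact le_self_pow₀ (by linarith) two_ne_zero
            linarith
          calc Γ * ‖u₀‖ * Λ = Γ * (‖u₀‖ * Λ) := by ring
            _ ≤ Γ * ρ := by gcongr
        have h9 : (4 * C₃ + 1) * (Γ * ρ) ≤ 2 * (4 * C₃ + 1) * (Γ * ‖u‖) := by
          have h10 : ρ ≤ 2 * ‖u‖ := by linarith
          calc (4 * C₃ + 1) * (Γ * ρ) ≤ (4 * C₃ + 1) * (Γ * (2 * ‖u‖)) := by gcongr
            _ = _ := by ring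
        have h12 : (C₃ * (2 * ρ) ^ 2 + Γ * ‖u₀‖) * Λ = C₃ * (2 * ρ) ^ 2 * Λ + Γ * ‖u₀‖ * Λ := by ring
        rw [h12]
        linarith
      have h11 := le_of_mul_le_mul_right h3 hΛ0
      linarith
    have hdg : ‖deriv g u - γ‖ ≤ ε * Γ := by
      have h2 : ‖deriv g u - γ‖ ≤ C₃ * (2 * ρ) := by
        calc ‖deriv g u - γ‖ ≤ C₃ * ‖u - u₀‖ := hg2
          _ ≤ C₃ * (2 * ρ) := by gcongr
      have h3 : C₃ * (2 * ρ) * Λ ≤ ε * Γ * Λ := by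
        have h4 : ε * Γ * Λ = 2 * (4 * C₃ + 1) * Γ := by
          calc ε * Γ * Λ = ε * Λ * Γ := by ring
            _ = _ := by rw [hεΛ]
        rw [h4]
        calc C₃ * (2 * ρ) * Λ = 2 * C₃ * (ρ * Λ) := by ring
          _ ≤ 2 * C₃ * 1 := by gcongr
          _ ≤ 2 * (4 * C₃ + 1) * 1 := by linarith
          _ ≤ 2 * (4 * C₃ + 1) * Γ := by gcongr
      have h11 := le_of_mul_le_mul_right h3 hΛ0
      linarith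
    have hγu : ‖γ * u‖ = Γ * ‖u‖ := by rw [norm_mul, hγ]
    have hγu0 : γ * u ≠ 0 := mul_ne_zero hγ0 hu0
    have hp : ‖g u / (γ * u) - 1‖ ≤ ε := by
      have h1 : g u / (γ * u) - 1 = (g u - γ * u) / (γ * u) := by field_simp
      rw [h1, norm_div, hγu, div_le_iff₀ (by positivity)]
      exact hgu
    have hs : ‖deriv g u / γ - 1‖ ≤ ε := by
      have h1 : deriv g u / γ - 1 = (deriv g u - γ) / γ := by field_simp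
      rw [h1, norm_div, hγ, div_le_iff₀ hΓ0]
      exact hdg
    have hgeq : γ * u * (g u / (γ * u)) = g u := by field_simp
    have hdeq : γ * (deriv g u / γ) = deriv g u := by field_simp
    -- size of x = g u
    have hxlo : 0 < ‖g u‖ := by
      have h1 : ‖γ * u‖ ≤ ‖g u‖ + ‖g u - γ * u‖ := by
        calc ‖γ * u‖ = ‖g u - (g u - γ * u)‖ := by ring_nf
          _ ≤ ‖g u‖ + ‖g u - γ * u‖ := norm_sub_le _ _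
      rw [hγu] at h1
      have h2 : 0 < Γ * ‖u‖ := by positivity
      have h3 := mul_le_mul_of_nonneg_right hε h2.le
      linarith
    have hxhi : ‖g u‖ * P ≤ 2 := by
      have h1 : ‖g u‖ ≤ ‖g u - γ * u‖ + ‖γ * u‖ := by
        calc ‖g u‖ = ‖(g u - γ * u) + γ * u‖ := by ring_nf
          _ ≤ _ := norm_add_le _ _
      rw [hγu] at h1
      have h2 : 0 < Γ * ‖u‖ := by positivity
      have h3 : Γ * ‖u‖ ≤ Γ * ρ := by gcongr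
      have h4 : Γ * ρ * P = 1 := by linarith
      have h6 := mul_le_mul_of_nonneg_right hε h2.le
      have h5 : ‖g u‖ ≤ 2 * (Γ * ρ) := by linarith
      calc ‖g u‖ * P ≤ 2 * (Γ * ρ) * P := by gcongr
        _ = 2 := by linarith
    have hxhalf : ‖g u‖ ≤ 1 / 2 := by
      have h1 := mul_le_mul_of_nonneg_left (le_trans hΛ4 hP1) (norm_nonneg (g u))
      linarith
    have hb := hbh (g u) hxlo hxhalf
    refine ⟨g u / (γ * u), deriv g u / γ, bh (g u) - xs / (g u) - a - b * (g u), hp, hs, hu0,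
      ?_, ?_⟩
    · rw [hgeq, hdeq]
      ring
    · have h1 : ‖g u‖ ^ 2 * (P * Λ) ≤ 4 := by
        have h2 : ‖g u‖ ^ 2 * (P * Λ) ≤ ‖g u‖ ^ 2 * (P * P) := by gcongr
        have h3 : ‖g u‖ ^ 2 * (P * P) = (‖g u‖ * P) ^ 2 := by ring
        have h4 : (‖g u‖ * P) ^ 2 ≤ 2 ^ 2 := by gcongr
        linarith
      calc ‖bh (g u) - xs / (g u) - a - b * (g u)‖ * (P * Λ)
          ≤ C₂ * ‖g u‖ ^ 2 * (P * Λ) := by gcongr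
        _ = C₂ * (‖g u‖ ^ 2 * (P * Λ)) := by ring
        _ ≤ C₂ * 4 := by gcongr
        _ = 4 * C₂ := by ring
  -- sizes of the model terms
  have hM : ∀ u : ℂ, ρ / 2 < ‖u‖ → ‖u‖ < ρ → Γ ^ 2 * P ≤ ‖γ / u‖ ∧ ‖γ / u‖ ≤ 2 * (Γ ^ 2 * P) ∧
      ‖a * γ ^ 2‖ = Γ ^ 2 * ‖a‖ ∧ Γ ^ 2 * (‖b‖ / P) ≤ 2 * ‖b * γ ^ 3 * u‖ ∧
      ‖b * γ ^ 3 * u‖ ≤ Γ ^ 2 * (‖b‖ / P) := by
    intro u hu1 hu2
    have hun : 0 < ‖u‖ := by linarith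
    have h4 : Γ * ρ * P = 1 := by linarith
    have hb0 : 0 ≤ ‖b‖ := norm_nonneg b
    refine ⟨?_, ?_, ?_, ?_, ?_⟩
    · rw [norm_div, hγ, le_div_iff₀ hun]
      calc Γ ^ 2 * P * ‖u‖ ≤ Γ ^ 2 * P * ρ := by gcongr
        _ = Γ * (Γ * ρ * P) := by ring
        _ = Γ := by rw [h4, mul_one]
    · rw [norm_div, hγ, div_le_iff₀ hun]
      calc Γ = Γ * (Γ * ρ * P) := by rw [h4, mul_one]
        _ = Γ ^ 2 * P * ρ := by ring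
        _ ≤ Γ ^ 2 * P * (2 * ‖u‖) := by
            gcongr
            linarith
        _ = 2 * (Γ ^ 2 * P) * ‖u‖ := by ring
    · rw [norm_mul, norm_pow, hγ]; ring
    · rw [norm_mul, norm_mul, norm_pow, hγ]
      have h5 : ‖b‖ / P = ‖b‖ * (Γ * ρ) := by
        rw [div_eq_iff hP0.ne']
        calc ‖b‖ = ‖b‖ * (Γ * ρ * P) := by rw [h4, mul_one]
          _ = ‖b‖ * (Γ * ρ) * P := by ring
      rw [h5]
      calc Γ ^ 2 * (‖b‖ * (Γ * ρ)) = ‖b‖ * Γ ^ 3 * ρ := by ring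
        _ ≤ ‖b‖ * Γ ^ 3 * (2 * ‖u‖) := by
            gcongr
            linarith
        _ = 2 * (‖b‖ * Γ ^ 3 * ‖u‖) := by ring
    · rw [norm_mul, norm_mul, norm_pow, hγ]
      have h5 : ‖b‖ / P = ‖b‖ * (Γ * ρ) := by
        rw [div_eq_iff hP0.ne']
        calc ‖b‖ = ‖b‖ * (Γ * ρ * P) := by rw [h4, mul_one]
          _ = ‖b‖ * (Γ * ρ) * P := by ring
      rw [h5]
      calc ‖b‖ * Γ ^ 3 * ‖u‖ ≤ ‖b‖ * Γ ^ 3 * ρ := by gcongr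
        _ = Γ ^ 2 * (‖b‖ * (Γ * ρ)) := by ring
  -- conclusion, with D the dominating size
  have dom : ∀ (D D' N' : ℝ) (N : ℝ), Λ * D' ≤ D → Γ ^ 2 * D ≤ 2 * N → N' ≤ 2 * (Γ ^ 2 * D') →
      N' ≤ 4 / Λ * N := by
    intro D D' N' N h1 h2 h3
    have h4 : 4 / Λ * N = 4 * N / Λ := by ring
    rw [h4, le_div_iff₀ hΛ0]
    have h5 : Γ ^ 2 * (Λ * D') ≤ Γ ^ 2 * D := by gcongr
    have h6 := mul_le_mul_of_nonneg_right h3 hΛ0.le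
    linarith
  have err : ∀ (e : ℂ) (D N : ℝ) (s : ℂ), ‖e‖ * (P * Λ) ≤ 4 * C₂ → P ≤ D → Γ ^ 2 * D ≤ 2 * N →
      ‖e * (γ * s) ^ 2‖ ≤ 9 / 4 * ‖e‖ * ‖γ‖ ^ 2 → ‖e * (γ * s) ^ 2‖ ≤ 18 * C₂ / Λ * N := by
    intro e D N s h1 h2 h3 h4
    refine h4.trans ?_
    have h5 : 18 * C₂ / Λ * N = 18 * C₂ * N / Λ := by ring
    rw [h5, le_div_iff₀ hΛ0, hγ]
    have h6 : 1 ≤ P := by linarith
    have h7 : ‖e‖ * Λ ≤ 4 * C₂ := by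
      calc ‖e‖ * Λ = ‖e‖ * (1 * Λ) := by ring
        _ ≤ ‖e‖ * (P * Λ) := by gcongr
        _ ≤ 4 * C₂ := h1
    have h8 : Γ ^ 2 ≤ 2 * N := by
      have : Γ ^ 2 * 1 ≤ Γ ^ 2 * D := by
        gcongr
        linarith
      linarith
    calc 9 / 4 * ‖e‖ * Γ ^ 2 * Λ = 9 / 4 * (‖e‖ * Λ) * Γ ^ 2 := by ring
      _ ≤ 9 / 4 * (4 * C₂) * (2 * N) := by gcongr
      _ = 18 * C₂ * N := by ring
  have one : ∀ D N : ℝ, P ≤ D → Γ ^ 2 * D ≤ 2 * N → 1 ≤ N := by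
    intro D N h1 h2
    have h3 : 1 ≤ Γ ^ 2 := one_le_pow₀ hΓ
    have h4 : 4 ≤ D := by linarith
    have h5 := mul_le_mul_of_nonneg_right h3 (by linarith : (0 : ℝ) ≤ D)
    linarith
  have hPP : P ≤ Λ * P := le_mul_of_one_le_left hP0.le (by linarith)
  rcases hsel with ⟨s1, s2⟩ | ⟨s1, s2⟩ | ⟨s1, s2⟩
  · -- d = -1
    refine ⟨ρ, γ, -1, hρc, hρle, hρX, Or.inl rfl, ?_⟩
    intro u hu1 hu2
    obtain ⟨p, s, e, hp, hs, hu0, heq, he⟩ := key u hu1 hu2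
    obtain ⟨m1, m2, m3, m4, m5⟩ := hM u hu1 hu2
    obtain ⟨t1, t2, t3, t4⟩ := LOC3_alg γ u a b xs p s e ε hε0 hε hu0 hγ0 hp hs hxs'
    have hz : γ * u ^ (-1 : ℤ) = γ / u := by rw [zpow_neg_one, div_eq_mul_inv]
    rw [hz]
    have hD : Γ ^ 2 * P ≤ 2 * ‖γ / u‖ := by
      have : 0 ≤ ‖γ / u‖ := norm_nonneg _
      linarith
    refine ⟨?_, one P _ le_rfl hD⟩
    refine LOC3_fin _ (γ / u) (a * γ ^ 2) (b * γ ^ 3 * u) _ _ _ _ ε Λ C₂ η hε0 hε hΛ0 heq t1 t2 t3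
      (err e P _ s he le_rfl hD t4) ?_ ?_ hηε
    · exact dom P ‖a‖ _ _ s1 hD (by
        rw [m3]
        have : 0 ≤ Γ ^ 2 * ‖a‖ := by positivity
        linarith)
    · exact dom P (‖b‖ / P) _ _ s2 hD (by
        have : 0 ≤ Γ ^ 2 * (‖b‖ / P) := by positivity
        linarith)
  · -- d = 0
    refine ⟨ρ, a * γ ^ 2, 0, hρc, hρle, hρX, Or.inr (Or.inl rfl), ?_⟩
    intro u hu1 hu2
    obtain ⟨p, s, e, hp, hs, hu0, heq, he⟩ := key u hu1 hu2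
    obtain ⟨m1, m2, m3, m4, m5⟩ := hM u hu1 hu2
    obtain ⟨t1, t2, t3, t4⟩ := LOC3_alg γ u a b xs p s e ε hε0 hε hu0 hγ0 hp hs hxs'
    have hz : a * γ ^ 2 * u ^ (0 : ℤ) = a * γ ^ 2 := by rw [zpow_zero, mul_one]
    rw [hz]
    have ha0 : 0 ≤ Γ ^ 2 * ‖a‖ := by positivity
    have hD : Γ ^ 2 * ‖a‖ ≤ 2 * ‖a * γ ^ 2‖ := by rw [m3]; linarith
    have hPa : P ≤ ‖a‖ := by linarith
    refine ⟨?_, one ‖a‖ _ hPa hD⟩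
    refine LOC3_fin _ (a * γ ^ 2) (γ / u) (b * γ ^ 3 * u) _ _ _ _ ε Λ C₂ η hε0 hε hΛ0
      (by rw [heq]; ring : bh (g u) * deriv g u ^ 2 = a * (γ * s) ^ 2 +
        xs / (γ * u * p) * (γ * s) ^ 2 + b * (γ * u * p) * (γ * s) ^ 2 + e * (γ * s) ^ 2) t2 t1 t3
      (err e ‖a‖ _ s he hPa hD t4) ?_ ?_ hηε
    · exact dom ‖a‖ P _ _ s1 hD m2
    · exact dom ‖a‖ (‖b‖ / P) _ _ s2 hD (by
        have : 0 ≤ Γ ^ 2 * (‖b‖ / P) := by positivity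
        linarith)
  · -- d = 1
    have hb1 : Λ * P * P ≤ ‖b‖ := by
      rw [le_div_iff₀ hP0] at s1
      exact s1
    have hb2 : Λ * ‖a‖ * P ≤ ‖b‖ := by
      rw [le_div_iff₀ hP0] at s2
      exact s2
    have hc1 : Λ₁ ≤ ‖b‖ * ρ ^ 2 := by
      have e1 : Γ ^ 2 * (Λ * P * P * ρ ^ 2) = Λ := by
        calc Γ ^ 2 * (Λ * P * P * ρ ^ 2) = Λ * (ρ * (Γ * P)) ^ 2 := by ring
          _ = Λ := by rw [hρP]; ring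
      have e2 : Λ * P * P * ρ ^ 2 ≤ ‖b‖ * ρ ^ 2 := by gcongr
      have e3 : Γ ^ 2 * Λ₁ ≤ Γ ^ 2 * (‖b‖ * ρ ^ 2) := by
        calc Γ ^ 2 * Λ₁ ≤ Λ := hΛg
          _ = Γ ^ 2 * (Λ * P * P * ρ ^ 2) := e1.symm
          _ ≤ Γ ^ 2 * (‖b‖ * ρ ^ 2) := by gcongr
      exact le_of_mul_le_mul_left e3 (by positivity)
    have hc2 : Λ₁ * ‖a‖ ≤ ‖b‖ * ρ := by
      have e1 : Γ * (Λ * ‖a‖ * P * ρ) = Λ * ‖a‖ := by
        calc Γ * (Λ * ‖a‖ * P * ρ) = Λ * ‖a‖ * (ρ * (Γ * P)) := by ring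
          _ = Λ * ‖a‖ := by rw [hρP]; ring
      have e2 : Γ * Λ₁ ≤ Λ := by
        have : Γ * Λ₁ ≤ Γ ^ 2 * Λ₁ := by
          gcongr
          exact le_self_pow₀ hΓ two_ne_zero
        linarith
      have e3 : Γ * (Λ₁ * ‖a‖) ≤ Γ * (‖b‖ * ρ) := by
        calc Γ * (Λ₁ * ‖a‖) = Γ * Λ₁ * ‖a‖ := by ring
          _ ≤ Λ * ‖a‖ := by gcongr
          _ = Γ * (Λ * ‖a‖ * P * ρ) := e1.symm
          _ ≤ Γ * (‖b‖ * ρ) := by gcongr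
      exact le_of_mul_le_mul_left e3 hΓ0
    refine ⟨ρ, b * γ ^ 3, 1, hρc, hρle, hρX, Or.inr (Or.inr ⟨rfl, hc1, hc2⟩), ?_⟩
    intro u hu1 hu2
    obtain ⟨p, s, e, hp, hs, hu0, heq, he⟩ := key u hu1 hu2
    obtain ⟨m1, m2, m3, m4, m5⟩ := hM u hu1 hu2
    obtain ⟨t1, t2, t3, t4⟩ := LOC3_alg γ u a b xs p s e ε hε0 hε hu0 hγ0 hp hs hxs'
    have hz : b * γ ^ 3 * u ^ (1 : ℤ) = b * γ ^ 3 * u := by rw [zpow_one]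
    rw [hz]
    have hPb : P ≤ ‖b‖ / P := by linarith
    refine ⟨?_, one (‖b‖ / P) _ hPb m4⟩
    refine LOC3_fin _ (b * γ ^ 3 * u) (γ / u) (a * γ ^ 2) _ _ _ _ ε Λ C₂ η hε0 hε hΛ0
      (by rw [heq]; ring : bh (g u) * deriv g u ^ 2 = b * (γ * u * p) * (γ * s) ^ 2 +
        xs / (γ * u * p) * (γ * s) ^ 2 + a * (γ * s) ^ 2 + e * (γ * s) ^ 2) t3 t1 t2
      (err e (‖b‖ / P) _ s he hPb m4 t4) ?_ ?_ hηε
    · exact dom (‖b‖ / P) P _ _ s1 m4 m2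
    · exact dom (‖b‖ / P) ‖a‖ _ _ s2 m4 (by
        rw [m3]
        have : 0 ≤ Γ ^ 2 * ‖a‖ := by positivity
        linarith)

end GR
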